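import Mathlib

namespace Pool.Agent.Results.MP_2c5934_co.Counter

/-- The `h`-fold sumset `hA` (repetition allowed). -/
def hsum {G : Type} [AddCommGroup G] (h : ℕ) (A : Finset G) : Set G :=
  {x | ∃ f : Fin h → G, (∀ i, f i ∈ A) ∧ x = ∑ i, f i}

/-- The `h`-fold signed sumset: all `∑ λ_a a` over `a ∈ A` with integers `∑ |λ_a| = h`. -/
def ssum {G : Type} [AddCommGroup G] (h : ℕ) (A : Finset G) : Set G :=
  {x | ∃ l : G → ℤ, ∑ a ∈ A, |l a| = (h : ℤ) ∧ x = ∑ a ∈ A, l a • a}

/-- `ρ(G,m,h)`: the least size of `hA` over `m`-element sets `A`. -/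
noncomputable def rho (G : Type) [AddCommGroup G] (m h : ℕ) : ℕ :=
  sInf {n | ∃ A : Finset G, A.card = m ∧ (hsum h A).ncard = n}

/-- `ρ±(G,m,h)`: the least size of the signed sumset over `m`-element sets `A`. -/
noncomputable def rhoPm (G : Type) [AddCommGroup G] (m h : ℕ) : ℕ :=
  sInf {n | ∃ A : Finset G, A.card = m ∧ (ssum h A).ncard = n}

/-- `δ = 0` if `h ∣ p - 1`, and `δ = 1` otherwise. -/
def delta (p h : ℕ) : ℕ := if h ∣ p - 1 then 0 else 1

abbrev G5 := Fin 2 → ZMod 5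

theorem four : ∀ a b : G5, a ≠ b →
    ({a + a + a, a + a + b, a + b + b, b + b + b} : Finset G5).card = 4 := by
  decide +kernel

theorem rho_ge : 4 ≤ rho G5 2 3 := by
  apply le_csInf
  · exact ⟨_, ({0, 1} : Finset G5), by decide, rfl⟩
  · rintro n ⟨A, hA, rfl⟩
    obtain ⟨a, b, hab, rfl⟩ := Finset.card_eq_two.1 hA
    rw [← four a b hab, ← Set.ncard_coe_finset]
    apply Set.ncard_le_ncard _ (Set.toFinite _)
    intro x hx
    simp only [Finset.coe_insert, Finset.coe_singleton, Set.mem_insert_iff,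
      Set.mem_singleton_iff] at hx
    rcases hx with rfl | rfl | rfl | rfl
    · exact ⟨![a, a, a], by intro i; fin_cases i <;> simp, by simp [Fin.sum_univ_three]⟩
    · exact ⟨![a, a, b], by intro i; fin_cases i <;> simp, by simp [Fin.sum_univ_three]⟩
    · exact ⟨![a, b, b], by intro i; fin_cases i <;> simp, by simp [Fin.sum_univ_three]⟩
    · exact ⟨![b, b, b], by intro i; fin_cases i <;> simp, by simp [Fin.sum_univ_three]⟩

theorem rhoPm_le : rhoPm G5 2 3 ≤ 4 := by
  have hne : (1 : G5) ≠ -1 := by decide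
  have hsub : ssum 3 ({1, -1} : Finset G5) ⊆
      (({(3 : ℤ) • 1, (1 : ℤ) • 1, (-1 : ℤ) • 1, (-3 : ℤ) • 1} : Finset G5) : Set G5) := by
    rintro x ⟨l, hl, rfl⟩
    rw [Finset.sum_pair hne] at hl ⊢
    have e : l 1 • (1 : G5) + l (-1) • (-1 : G5) = (l 1 - l (-1)) • (1 : G5) := by
      rw [smul_neg, sub_smul, sub_eq_add_neg]
    rw [e]
    have hc : l 1 - l (-1) = 3 ∨ l 1 - l (-1) = 1 ∨ l 1 - l (-1) = -1 ∨ l 1 - l (-1) = -3 := by
      generalize l 1 = u at hl ⊢
      generalize l (-1) = v at hl ⊢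
      push_cast at hl
      rcases abs_cases u with ⟨h1, h2⟩ | ⟨h1, h2⟩ <;> rcases abs_cases v with ⟨h3, h4⟩ | ⟨h3, h4⟩ <;>
        omega
    rcases hc with h | h | h | h <;> rw [h] <;> simp
  have h4 : (ssum 3 ({1, -1} : Finset G5)).ncard ≤ 4 := by
    refine (Set.ncard_le_ncard hsub (Set.toFinite _)).trans ?_
    rw [Set.ncard_coe_finset]
    exact Finset.card_le_four
  refine le_trans (Nat.sInf_le ?_) h4
  exact ⟨({1, -1} : Finset G5), Finset.card_pair hne, rfl⟩

theorem result : ¬ ∀ p r h m k c : ℕ, p.Prime → Odd p → 2 ≤ r → 2 ≤ h → h ≤ p - 1 →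
    2 ≤ m → m ≤ p ^ r →
    IsGreatest {j : ℕ | p ^ j + delta p h ≤ h * m - h + 1} k →
    IsGreatest {j : ℕ | (h * j + 1) * p ^ k + delta p h ≤ h * m - h + 1} c →
    (c + 1) * p ^ k < m →
    rho (Fin r → ZMod p) m h < rhoPm (Fin r → ZMod p) m h := by
  intro H
  have hd : delta 5 3 = 1 := by decide
  have := H 5 2 3 2 0 0 (by norm_num) (by decide) le_rfl (by norm_num) (by norm_num) le_rfl
    (by norm_num) ?_ ?_ (by norm_num)
  · have h1 := rho_ge
    have h2 := rhoPm_le
    exact absurd this (not_lt.2 (h2.trans h1))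
  · constructor
    · simp [hd]
    · intro j hj
      simp only [Set.mem_ofPred_eq, hd] at hj
      rcases j with _ | j
      · exact le_rfl
      · exfalso
        have : 1 ≤ 5 ^ j := Nat.one_le_pow _ _ (by norm_num)
        rw [pow_succ] at hj
        omega
  · constructor
    · simp [hd]
    · intro j hj
      simp only [Set.mem_ofPred_eq, hd] at hj
      omega

end Pool.Agent.Results.MP_2c5934_co.Counter
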